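import Pool.Agent.H62.LP.T1
import Pool.Agent.H62.LP.T4

/-!
Row EAS of rwl_modules (helper20): the easy direction.
-/

set_option autoImplicit false

open MeasureTheory ProbabilityTheory Filter Topology
open scoped ENNReal NNReal

namespace Pool.Agent.H20.LP

open Pool.Agent.H62.LP

theorem eas_nm {d : ℕ} (x : Vt d) (r : ℕ) : nm x ≤ r ↔ ∀ i, (x i).natAbs ≤ r := by
  unfold nm
  rw [Finset.sup_le_iff]
  exact ⟨fun h i => h i (Finset.mem_univ i), fun h i _ => h i⟩

theorem eas_fin (d L : ℕ) : {z : Vt d | nm z ≤ L}.Finite := by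
  refine (Set.Finite.pi' (ι := Fin d) (κ := fun _ => ℤ) (t := fun _ => Set.Icc (-(L : ℤ)) L)
    (fun _ => Set.finite_Icc _ _)).subset ?_
  intro z hz i
  have h := (eas_nm z L).1 hz i
  rw [Set.mem_Icc]
  omega

theorem eas_adj {d : ℕ} {x y : Vt d} (h : Adj x y) : nm y ≤ nm x + 1 := by
  rw [eas_nm]
  intro i
  have h1 := (eas_nm x (nm x)).1 le_rfl i
  have h2 : |x i - y i| ≤ 1 := by
    unfold Adj at h
    rw [← h]
    exact Finset.single_le_sum (f := fun i => |x i - y i|) (fun j _ => abs_nonneg _)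
      (Finset.mem_univ i)
  rw [abs_le] at h2
  omega

instance eas_countable (d : ℕ) : Countable (Cycle (Vt d)) :=
  inferInstanceAs (Countable (Quotient _))

theorem eas_cycle {α : Type} (c : Cycle α) : {x | x ∈ c}.Finite := by
  induction c using Quotient.inductionOn with
  | _ l => exact List.finite_toSet l

theorem eas_trav {d : ℕ} {c : Cycle (Vt d)} {x y : Vt d} (h : Trav c x y) : x ∈ c ∧ y ∈ c := by
  obtain ⟨l, rfl | rfl⟩ := h
  · simp
  · simp

/-- the existence of an infinite cluster does not depend on finitely many loops -/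
theorem eas_change {d : ℕ} (N N' : Cycle (Vt d) → ℕ) (h : {c | N c ≠ N' c}.Finite)
    (hx : ∃ x, (cluster N x).Infinite) : ∃ x, (cluster N' x).Infinite := by
  classical
  obtain ⟨x, hx⟩ := hx
  set F : Set (Vt d) := ⋃ c ∈ {c | N c ≠ N' c}, {y | y ∈ c} with hF
  have hFfin : F.Finite := h.biUnion fun c _ => eas_cycle c
  have key : ∀ y, Relation.ReflTransGen (Open N) x y →
      ∃ w ∈ insert x F, Relation.ReflTransGen (Open N') w y := by
    intro y hy
    induction hy with
    | refl => exact ⟨x, Set.mem_insert x F, Relation.ReflTransGen.refl⟩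
    | tail _ hstep ih =>
      rename_i u v _
      obtain ⟨w, hw, hwy⟩ := ih
      obtain ⟨c, hc, ht⟩ := hstep
      by_cases hcc : N c = N' c
      · exact ⟨w, hw, Relation.ReflTransGen.tail hwy ⟨c, by rw [← hcc]; exact hc, ht⟩⟩
      · refine ⟨v, Set.mem_insert_of_mem x ?_, Relation.ReflTransGen.refl⟩
        rw [hF]
        exact Set.mem_biUnion (show c ∈ {c | N c ≠ N' c} from hcc) (eas_trav ht).2
  by_contra hno
  push Not at hno
  apply hx
  refine ((hFfin.insert x).biUnion fun w _ => hno w).subset ?_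
  intro y hy
  obtain ⟨w, hw, hwy⟩ := key y hy
  exact Set.mem_biUnion hw hwy

/-- an infinite cluster crosses all annuli -/
theorem eas_cross {d : ℕ} (hADJ : T_ADJ) (N : Cycle (Vt d) → ℕ)
    (hN : ∀ c, 1 ≤ N c → mu c ≠ 0) (n m : ℕ) (hnm : n ≤ m) (x : Vt d) (hx : nm x ≤ n)
    (hinf : (cluster N x).Infinite) : Cross n m N := by
  have key : ∀ y, Relation.ReflTransGen (Open N) x y → m ≤ nm y →
      ∃ y', Relation.ReflTransGen (Open N) x y' ∧ nm y' = m := by
    intro y hy
    induction hy with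
    | refl =>
      intro h
      exact ⟨x, Relation.ReflTransGen.refl, by omega⟩
    | tail hu hstep ih =>
      rename_i u v
      intro h
      by_cases hum : m ≤ nm u
      · exact ih hum
      · obtain ⟨c, hc, ht⟩ := id hstep
        have h1 := eas_adj ((hADJ d c (hN c hc)).1 _ _ ht).1
        exact ⟨v, Relation.ReflTransGen.tail hu hstep, by omega⟩
  obtain ⟨y, hy, hym⟩ : ∃ y ∈ cluster N x, m ≤ nm y := by
    by_contra hno
    push Not at hno
    exact hinf ((eas_fin d m).subset fun y hy => (hno y hy).le)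
  obtain ⟨y', h1, h2⟩ := key y hy hym
  exact ⟨x, y', hx, h2, h1⟩

theorem pf_EAS (hZ01 : T_Z01) (hADJ : T_ADJ) (hPRS : T_PRS) (hCLM : T_CLM) : T_EAS := by
  intro d
  unfold alphaSharp alphaC
  refine iSup₂_le fun β hβ => le_iInf₂ fun α hα => iInf₂_le α ?_
  have hmu : ∀ᵐ N ∂(soup d α), ∀ c, 1 ≤ N c → mu c ≠ 0 ∧ α ≠ 0 := by
    filter_upwards [hPRS (Cycle (Vt d)) (inten d α)] with N hN c hc
    have h1 := hN c hc
    unfold inten at h1
    refine ⟨fun h0 => h1 ?_, fun h0 => h1 ?_⟩
    · rw [h0, ENNReal.toNNReal_zero, mul_zero]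
    · rw [h0, zero_mul]
  have hα0 : 0 < α := by
    rw [pos_iff_ne_zero]
    intro h0
    refine hα.ne' ?_
    rw [measure_eq_zero_iff_ae_notMem]
    filter_upwards [hmu] with N hN hinf
    refine hinf ((Set.finite_singleton (0 : Vt d)).subset ?_)
    intro y hy
    rw [Set.mem_singleton_iff]
    have h1 : Relation.ReflTransGen (Open N) 0 y := hy
    rcases Relation.ReflTransGen.cases_head h1 with h2 | ⟨u, ⟨c, hc, -⟩, -⟩
    · exact h2.symm
    · exact absurd h0 (hN c hc).2
  refine ⟨hα0, ?_⟩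
  -- the zero-one law
  set E : Set (Cycle (Vt d) → ℕ) := {N | ∃ x, (cluster N x).Infinite} with hE
  have hEm : MeasurableSet E := by
    have h1 : E = ⋃ x, {N | (cluster N x).Infinite} := by
      ext N
      simp [hE]
    rw [h1]
    exact MeasurableSet.iUnion fun x => (hCLM d).1 x
  have hE1 : soup d α E = 1 := by
    have h1 := hZ01 (Cycle (Vt d)) (inten d α) E hEm (fun N N' h =>
      ⟨eas_change N N' h, eas_change N' N (by
        refine h.subset fun c hc => ?_
        exact fun h' => hc h'.symm)⟩)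
    rcases h1 with h1 | h1
    · exfalso
      have h2 : soup d α {N | (cluster N 0).Infinite} ≤ soup d α E :=
        measure_mono fun N hN => ⟨0, hN⟩
      have h3 : soup d α E = 0 := h1
      rw [h3] at h2
      exact absurd hα (not_lt.2 h2)
    · exact h1
  set A : ℕ → Set (Cycle (Vt d) → ℕ) := fun n => {N | ∃ x, nm x ≤ n ∧ (cluster N x).Infinite}
    with hA
  have hAm : Monotone A := by
    rintro n n' hn N ⟨x, hx, hx'⟩
    exact ⟨x, hx.trans hn, hx'⟩
  have hAU : ⋃ n, A n = E := by
    ext N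
    rw [Set.mem_iUnion]
    constructor
    · rintro ⟨n, x, -, hx⟩
      exact ⟨x, hx⟩
    · rintro ⟨x, hx⟩
      exact ⟨nm x, x, le_rfl, hx⟩
  have hlim : Tendsto (fun n => soup d α (A n)) atTop (𝓝 1) := by
    have h1 := tendsto_measure_iUnion_atTop (μ := soup d α) hAm
    rw [hAU, hE1] at h1
    exact h1
  have hcr : Tendsto (fun n : ℕ => soup d α {N | Cross n ⌈β * n⌉₊ N}) atTop (𝓝 1) := by
    refine tendsto_of_tendsto_of_tendsto_of_le_of_le hlim tendsto_const_nhds ?_ ?_
    · intro n
      refine measure_mono_ae ?_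
      filter_upwards [hmu] with N hN hNA
      obtain ⟨x, hx, hx'⟩ := hNA
      refine eas_cross hADJ N (fun c hc => (hN c hc).1) n ⌈β * n⌉₊ ?_ x hx hx'
      have h1 : (n : ℝ) ≤ β * n := le_mul_of_one_le_left (Nat.cast_nonneg n) hβ.le
      have h2 : (n : ℝ) ≤ (⌈β * n⌉₊ : ℕ) := h1.trans (Nat.le_ceil _)
      exact_mod_cast h2
    · intro n
      have h1 : soup d α Set.univ = 1 := by
        unfold soup
        exact measure_univ
      change soup d α {N | Cross n ⌈β * n⌉₊ N} ≤ 1
      rw [← h1]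
      exact measure_mono (Set.subset_univ _)
  exact hcr.limsup_eq

end Pool.Agent.H20.LP
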