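import Pool.Agent.H20.LP.LKP

/-!
Row GBM of rwl_modules (helper20): good blocks, measurability and locality.
-/

set_option autoImplicit false

open MeasureTheory ProbabilityTheory Filter Topology
open scoped ENNReal NNReal

namespace Pool.Agent.H20.LP

open Pool.Agent.H62.LP

theorem gbm_loc {M' n β K : ℕ} {D : V3 → (Lp → ℕ) → Option Cr} (hD : CrSel n β K D)
    (hM : 2 * M' ≤ K * β) (v : V3) (ω ω' : Om)
    (h : ∀ c : Lp, c ≠ Cycle.nil → (∀ u ∈ c, nm (u - sc n v) ≤ (K + 2) * (β * n)) →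
      ω.1 c = ω'.1 c ∧ ∀ j, ω.2 j c = ω'.2 j c) (hg : GoodB M' n β D v ω) :
    GoodB M' n β D v ω' := by
  have hb : ∀ (x u : V3) (R : ℕ), nm x ≤ 2 * β → R ≤ K * (β * n) → nm (u - sc n (x + v)) ≤ R →
      nm (u - sc n v) ≤ (K + 2) * (β * n) := by
    intro x u R hx hR hu
    have h1 := lkp_tri u (sc n (x + v)) (sc n v)
    rw [lkp_sc_sub, lkp_sc, add_sub_cancel_right] at h1
    have h2 : n * nm x ≤ n * (2 * β) := Nat.mul_le_mul_left n hx
    have h3 : (K + 2) * (β * n) = K * (β * n) + n * (2 * β) := by ring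
    omega
  have hDeq : ∀ x, nm x ≤ 2 * β → D (x + v) ω.1 = D (x + v) ω'.1 := by
    intro x hx
    refine hD.loc (x + v) ω.1 ω'.1 fun c hc hcr => (h c hc fun u hu => ?_).1
    exact hb x u _ hx le_rfl (hcr u hu)
  refine ⟨fun x hx => by rw [← hDeq x hx]; exact hg.1 x hx, fun x y hx hy => ?_⟩
  refine Relation.EqvGen.mono ?_ _ _ (hg.2 x y hx hy)
  rintro a b ⟨ha, hb', j, z, hz, hl⟩
  refine ⟨ha, hb', j, z, hz, ?_⟩
  change Lk (sc n (z + v)) (M' * (2 * n)) (ver (D (a + v) ω'.1)) (ver (D (b + v) ω'.1))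
    (sp (ω'.2 j))
  rw [← hDeq a ha, ← hDeq b hb']
  refine lkp_congr (fun c hc hcr => (h c hc fun u hu => ?_).2 j) hl
  refine hb z u _ hz ?_ (hcr u hu)
  have h4 : M' * (2 * n) = (2 * M') * n := by ring
  have h5 : K * (β * n) = (K * β) * n := by ring
  rw [h4, h5]
  exact Nat.mul_le_mul_right n hM

open Classical in
/-- the crossings given by a function on the finite ball -/
noncomputable def gbm_fun (β : ℕ) (v : V3) (d : {x : V3 // nm x ≤ 2 * β} → Cr) (u : V3) : Set V3 :=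
  if h : nm (u - v) ≤ 2 * β then ((d ⟨u - v, h⟩).1 : Set V3) else ∅

theorem gbm_rel (M' n β : ℕ) (D : V3 → (Lp → ℕ) → Option Cr) (v : V3)
    (d : {x : V3 // nm x ≤ 2 * β} → Cr) (ω : Om)
    (hd : ∀ x : {x : V3 // nm x ≤ 2 * β}, D ((x : V3) + v) ω.1 = some (d x)) (x y : V3) :
    RelJ (LkB M' n v (fun x => ver (D x ω.1))) β ω.2 x y ↔
      RelJ (LkB M' n v (gbm_fun β v d)) β ω.2 x y := by
  classical
  have hver : ∀ x, nm x ≤ 2 * β → ver (D (x + v) ω.1) = gbm_fun β v d (x + v) := by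
    intro x hx
    have h1 := hd ⟨x, hx⟩
    have h2 : x + v - v = x := add_sub_cancel_right x v
    have h3 : nm (x + v - v) ≤ 2 * β := by rw [h2]; exact hx
    unfold gbm_fun
    rw [dif_pos h3]
    have h4 : (⟨x + v - v, h3⟩ : {x : V3 // nm x ≤ 2 * β}) = ⟨x, hx⟩ := Subtype.ext h2
    rw [h4]
    change ver (D (x + v) ω.1) = _
    have h5 : D (x + v) ω.1 = some (d ⟨x, hx⟩) := h1
    rw [h5]
    ext u
    simp [ver]
  constructor
  · refine Relation.EqvGen.mono ?_ x y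
    rintro a b ⟨ha, hb, j, z, hz, hl⟩
    refine ⟨ha, hb, j, z, hz, ?_⟩
    change Lk _ _ (gbm_fun β v d (a + v)) (gbm_fun β v d (b + v)) _
    rw [← hver a ha, ← hver b hb]
    exact hl
  · refine Relation.EqvGen.mono ?_ x y
    rintro a b ⟨ha, hb, j, z, hz, hl⟩
    refine ⟨ha, hb, j, z, hz, ?_⟩
    change Lk _ _ (ver (D (a + v) ω.1)) (ver (D (b + v) ω.1)) _
    rw [hver a ha, hver b hb]
    exact hl

theorem pf_GBM (hLME : T_LME) (hRLM : T_RLM) : T_GBM := by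
  classical
  intro M' n β K D hD hM v
  refine ⟨?_, fun ω ω' h => ⟨gbm_loc hD hM v ω ω' h, gbm_loc hD hM v ω' ω fun c hc hcr =>
    ⟨(h c hc hcr).1.symm, fun j => ((h c hc hcr).2 j).symm⟩⟩⟩
  haveI : Countable Lp := inferInstanceAs (Countable (Quotient _))
  haveI : Finite {x : V3 // nm x ≤ 2 * β} := (shl_fin (2 * β)).to_subtype
  have hset : {ω : Om | GoodB M' n β D v ω} = ⋃ d : {x : V3 // nm x ≤ 2 * β} → Cr,
      ((⋂ x : {x : V3 // nm x ≤ 2 * β}, Prod.fst ⁻¹' {N | D ((x : V3) + v) N = some (d x)}) ∩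
        ⋂ x : V3, ⋂ y : V3, ⋂ _ : nm x ≤ β ∧ nm y ≤ β,
          Prod.snd ⁻¹' {ω : Fin 20 → Lp → ℕ | RelJ (LkB M' n v (gbm_fun β v d)) β ω x y}) := by
    ext ω
    simp only [Set.mem_iUnion, Set.mem_inter_iff, Set.mem_iInter, Set.mem_preimage]
    constructor
    · rintro ⟨h1, h2⟩
      have h3 : ∀ x : {x : V3 // nm x ≤ 2 * β}, ∃ p, D ((x : V3) + v) ω.1 = some p := fun x =>
        Option.ne_none_iff_exists'.1 (h1 x x.2)
      choose d hd using h3
      refine ⟨d, hd, fun x y hxy => ?_⟩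
      exact (gbm_rel M' n β D v d ω hd x y).1 (h2 x y hxy.1 hxy.2)
    · rintro ⟨d, hd, h2⟩
      refine ⟨fun x hx => ?_, fun x y hx hy => ?_⟩
      · have h3 : D (x + v) ω.1 = some (d ⟨x, hx⟩) := hd ⟨x, hx⟩
        rw [h3]
        exact Option.some_ne_none _
      · exact (gbm_rel M' n β D v d ω hd x y).2 (h2 x y ⟨hx, hy⟩)
  rw [hset]
  refine MeasurableSet.iUnion fun d => MeasurableSet.inter ?_ ?_
  · exact MeasurableSet.iInter fun x => measurable_fst (hD.meas _ _)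
  · refine MeasurableSet.iInter fun x => MeasurableSet.iInter fun y => MeasurableSet.iInter
      fun _ => ?_
    exact measurable_snd (hRLM (Lp → ℕ) 20 β _ (fun a b c => (hLME _ _ _ _).1) x y)

end Pool.Agent.H20.LP
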