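import Pool.Agent.H62.LP.T1
import Pool.Agent.H62.LP.T2

/-!
Row HLA of rwl_modules (helper20): the part of the mixed moment on good loops.
-/

set_option autoImplicit false

open MeasureTheory ProbabilityTheory Filter Topology
open scoped ENNReal NNReal

namespace Pool.Agent.H20.LP

open Pool.Agent.H62.LP

theorem hla_nm {d : ℕ} (x : Vt d) (r : ℕ) : nm x ≤ r ↔ ∀ i, (x i).natAbs ≤ r := by
  unfold nm
  rw [Finset.sup_le_iff]
  exact ⟨fun h i => h i (Finset.mem_univ i), fun h i _ => h i⟩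

theorem hla_le_nm {d : ℕ} (x : Vt d) (i : Fin d) : (x i).natAbs ≤ nm x :=
  Finset.le_sup (f := fun i => (x i).natAbs) (Finset.mem_univ i)

theorem hla_cen (s : ℤ) (n : ℕ) : cen s n 0 = 8 * s * n ∧ ∀ i : Fin 3, i ≠ 0 → cen s n i = 0 := by
  unfold cen
  refine ⟨by simp, fun i hi => ?_⟩
  rw [Pi.single_eq_of_ne hi]

theorem hla_Rg {s : ℤ} (hs : s = 1 ∨ s = -1) {n : ℕ} {x : V3} (hx : x ∈ Rg s n) :
    x ∈ Bl 0 (20 * n) ∧ 7 * n ≤ (x 0).natAbs := by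
  have h1 : ∀ i, ((x - cen s n) i).natAbs ≤ n := (hla_nm _ _).1 hx
  obtain ⟨hc0, hc⟩ := hla_cen s n
  constructor
  · change nm (x - 0) ≤ 20 * n
    rw [sub_zero, hla_nm]
    intro i
    have h2 := h1 i
    rw [Pi.sub_apply] at h2
    by_cases hi : i = 0
    · subst hi
      rw [hc0] at h2
      rcases hs with rfl | rfl <;> omega
    · rw [hc i hi, sub_zero] at h2
      omega
  · have h2 := h1 0
    rw [Pi.sub_apply, hc0] at h2
    rcases hs with rfl | rfl <;> omega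

theorem hla_dist {s : ℤ} (hs : s = 1 ∨ s = -1) {n : ℕ} {x y : V3} (hx : x ∈ Bl 0 (2 * n))
    (hy : y ∈ Rg s n) : n ≤ nm (x - y) := by
  have h1 := (hla_Rg hs hy).2
  have h2 : ∀ i, ((x - 0) i).natAbs ≤ 2 * n := (hla_nm _ _).1 hx
  have h3 := h2 0
  rw [sub_zero] at h3
  have h4 := hla_le_nm (x - y) 0
  rw [Pi.sub_apply] at h4
  omega

theorem hla_mass (hCNT : T_CNT) (s : ℤ) (n : ℕ) :
    mass (oneR s n) = (((2 * n + 1) ^ 3 : ℕ) : ℝ≥0∞) := by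
  classical
  obtain ⟨hfin, hcard⟩ := hCNT.1 (cen s n) n
  have hRg : Rg s n = Bl (cen s n) n := rfl
  unfold mass
  have h1 : ∀ x, x ∉ hfin.toFinset → oneR s n x = 0 := by
    intro x hx
    unfold oneR
    rw [if_neg]
    intro h
    exact hx (hfin.mem_toFinset.2 h)
  rw [tsum_eq_sum h1]
  have h2 : ∀ x ∈ hfin.toFinset, oneR s n x = 1 := by
    intro x hx
    unfold oneR
    rw [if_pos]
    exact hfin.mem_toFinset.1 hx
  rw [Finset.sum_congr rfl h2, Finset.sum_const, nsmul_eq_mul, mul_one, ← hcard,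
    Set.ncard_eq_toFinset_card _ hfin]

theorem hla_vis {s : ℤ} {n : ℕ} {l : List V3} (h : ¬ ∃ y ∈ l, y ∈ Rg s n) :
    vis (oneR s n) l = 0 := by
  unfold vis
  rw [List.sum_eq_zero_iff]
  intro x hx
  rw [List.mem_map] at hx
  obtain ⟨y, hy, rfl⟩ := hx
  unfold oneR
  rw [if_neg fun hR => h ⟨y, hy, hR⟩]

theorem pf_HLA (hLOW : T_LOW) (hUP2 : T_UP2) (hUHT : T_UHT) (hCS : T_CS) (hGSU : T_GSU)
    (hCNT : T_CNT) (hGTR : T_GTR) : T_HLA := by
  classical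
  intro C₀ c M hC₀ hc
  obtain ⟨C, hC⟩ := hGSU C₀ hC₀.2
  have hC₀1 := hC₀.1
  have hc0 := hc.1
  have hM := hc.2.1
  set D : ℝ≥0 := 108 * (C + 1) * C₀ ^ 3 with hD
  have hC₀0 : 0 < C₀ := zero_lt_one.trans_le hC₀1
  have hD0 : 0 < D := by positivity
  set κ : ℝ≥0 := (4 * c ^ 2) ^ 2 / D with hκ
  have hκ0 : 0 < κ := by positivity
  refine ⟨4 * c ^ 2, κ, by positivity, hκ0, fun n s hn hs e he hW => ?_⟩
  set W := mass e with hWdef
  have hn0 : (n : ℝ≥0∞) ≠ 0 := by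
    have : n ≠ 0 := by omega
    exact_mod_cast this
  have hntop : (n : ℝ≥0∞) ≠ ⊤ := ENNReal.natCast_ne_top n
  have hMn : 20 * n ≤ M * n := Nat.mul_le_mul_right n (by omega)
  set f := oneR s n with hf
  -- the total
  set good : List V3 → Prop := fun l => (κ : ℝ≥0∞) * (n : ℝ≥0∞) * vis2 (gR s n) l ≤ vis f l ^ 2
    with hgood
  set T : ℝ≥0∞ := ∑' l : List V3, if (∀ x ∈ l, x ∈ Bl 0 (M * n)) then lw l * (vis e l * vis f l)
    else 0 with hT
  set G : ℝ≥0∞ := ∑' l : List V3, if (∀ x ∈ l, x ∈ Bl 0 (M * n)) ∧ good l then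
    lw l * (vis e l * vis f l) else 0 with hG
  set B : ℝ≥0∞ := ∑' l : List V3, if ¬ good l then lw l * (vis e l * vis f l) else 0 with hB
  change ((4 * c ^ 2 : ℝ≥0) : ℝ≥0∞) * n * W ≤ G
  have hfsupp : ∀ x, f x ≠ 0 → x ∈ Rg s n := by
    intro x hx
    by_contra h
    apply hx
    rw [hf]
    unfold oneR
    rw [if_neg h]
  have hTlow : ((c : ℝ≥0∞) / (n : ℝ≥0∞)) ^ 2 * (W * mass f) ≤ T :=
    hLOW c M hc n hn e f (fun x hx => by
      have h1 := he x hx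
      change nm (x - 0) ≤ 20 * n
      have h2 : nm (x - 0) ≤ 2 * n := h1
      omega) (fun x hx => (hla_Rg hs (hfsupp x hx)).1)
  have hTGB : T ≤ G + B := by
    rw [hT, hG, hB, ← ENNReal.tsum_add]
    refine ENNReal.tsum_le_tsum fun l => ?_
    by_cases h1 : ∀ x ∈ l, x ∈ Bl 0 (M * n)
    · by_cases h2 : good l
      · rw [if_pos h1, if_pos ⟨h1, h2⟩]
        exact le_self_add
      · rw [if_pos h1, if_pos h2]
        exact le_add_self
    · rw [if_neg h1]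
      exact zero_le
  -- the bad part
  have hsymm : ∀ b b', gR s n b b' = gR s n b' b := by
    intro b b'
    unfold gR
    rw [(hGTR b b' 0).2, mul_comm (oneR s n b)]
  have hE : ∑' b, ∑' b', gR s n b b' * Gr b b' ≤ 54 * (C + 1) * (n : ℝ≥0∞) ^ 4 := by
    have h1 : ∀ b, ∑' b', gR s n b b' * Gr b b' ≤ f b * (C * ((1 + n : ℕ) : ℝ≥0∞)) := by
      intro b
      have h2 : ∀ b', gR s n b b' * Gr b b' =
          f b * (if b' ∈ Bl (cen s n) n then Gr b b' ^ 2 else 0) := by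
        intro b'
        unfold gR
        by_cases h3 : b' ∈ Bl (cen s n) n
        · have h4 : oneR s n b' = 1 := by
            unfold oneR
            rw [if_pos]
            exact h3
          rw [if_pos h3, h4, mul_one, mul_assoc, ← sq]
        · have h4 : oneR s n b' = 0 := by
            unfold oneR
            rw [if_neg]
            exact h3
          rw [if_neg h3, h4]
          simp
      rw [tsum_congr h2, ENNReal.tsum_mul_left]
      exact mul_le_mul_right ((hC b (cen s n) n).2) _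
    refine (ENNReal.tsum_le_tsum h1).trans ?_
    rw [ENNReal.tsum_mul_right]
    change mass f * _ ≤ _
    rw [hf, hla_mass hCNT]
    have h5 : (((2 * n + 1) ^ 3 : ℕ) : ℝ≥0∞) ≤ ((27 * n ^ 3 : ℕ) : ℝ≥0∞) := by
      have h6 : (2 * n + 1) ^ 3 ≤ (3 * n) ^ 3 := Nat.pow_le_pow_left (by omega) 3
      have h7 : (3 * n) ^ 3 = 27 * n ^ 3 := by ring
      rw [h7] at h6
      exact_mod_cast h6
    have h8 : ((1 + n : ℕ) : ℝ≥0∞) ≤ ((2 * n : ℕ) : ℝ≥0∞) := by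
      exact_mod_cast (by omega : 1 + n ≤ 2 * n)
    calc (((2 * n + 1) ^ 3 : ℕ) : ℝ≥0∞) * (C * ((1 + n : ℕ) : ℝ≥0∞)) ≤
          ((27 * n ^ 3 : ℕ) : ℝ≥0∞) * ((C + 1) * ((2 * n : ℕ) : ℝ≥0∞)) :=
          mul_le_mul' h5 (mul_le_mul' le_self_add h8)
      _ = 54 * (C + 1) * (n : ℝ≥0∞) ^ 4 := by
          push_cast
          ring
  have hU : ∀ x ∈ Bl (0 : V3) (2 * n), ∀ y ∈ Rg s n, n ≤ nm (x - y) := fun x hx y hy =>
    hla_dist hs hx hy
  have hup := hUP2 C₀ hC₀ n hn (Bl 0 (2 * n)) (Rg s n) hU e (gR s n) he (by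
    intro b b' hb
    unfold gR at hb
    have h1 := left_ne_zero_of_mul (left_ne_zero_of_mul hb)
    have h2 := right_ne_zero_of_mul (left_ne_zero_of_mul hb)
    exact ⟨hfsupp b h1, hfsupp b' h2⟩) hsymm
  have hht := hUHT C₀ hC₀ n hn (Bl 0 (2 * n)) (Rg s n) hU e he
  have hB2 : B ^ 2 ≤ (((4 * c ^ 2 : ℝ≥0) : ℝ≥0∞) * n * W) ^ 2 := by
    have h1 : B = ∑' l : List V3, (lw l * vis e l) *
        ((if ∃ y ∈ l, y ∈ Rg s n then 1 else 0) * (if ¬ good l then vis f l else 0)) := by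
      rw [hB]
      refine tsum_congr fun l => ?_
      by_cases h2 : ∃ y ∈ l, y ∈ Rg s n
      · rw [if_pos h2, one_mul]
        by_cases h3 : good l
        · rw [if_neg (not_not.2 h3), if_neg (not_not.2 h3), mul_zero]
        · rw [if_pos h3, if_pos h3, mul_assoc]
      · have h4 : vis f l = 0 := hla_vis h2
        rw [if_neg h2]
        by_cases h3 : good l
        · rw [if_neg (not_not.2 h3), zero_mul, mul_zero]
        · rw [if_pos h3, if_pos h3, h4, mul_zero, mul_zero, mul_zero, mul_zero]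
    have h2 := hCS (List V3) (fun l => lw l * vis e l)
      (fun l => if ∃ y ∈ l, y ∈ Rg s n then 1 else 0) (fun l => if ¬ good l then vis f l else 0)
    rw [← h1] at h2
    refine h2.trans ?_
    have h3 : ∑' l : List V3, (lw l * vis e l) * (if ∃ y ∈ l, y ∈ Rg s n then 1 else 0) ^ 2 ≤
        (C₀ : ℝ≥0∞) / (n : ℝ≥0∞) * W := by
      refine le_trans (le_of_eq (tsum_congr fun l => ?_)) hht
      by_cases h4 : ∃ y ∈ l, y ∈ Rg s n
      · rw [if_pos h4, if_pos h4, one_pow, mul_one]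
      · rw [if_neg h4, if_neg h4, zero_pow two_ne_zero, mul_zero]
    have h4 : ∑' l : List V3, (lw l * vis e l) * (if ¬ good l then vis f l else 0) ^ 2 ≤
        (κ : ℝ≥0∞) * n * (2 * ((C₀ : ℝ≥0∞) / (n : ℝ≥0∞)) ^ 2 *
          (W * (54 * (C + 1) * (n : ℝ≥0∞) ^ 4))) := by
      have h5 : ∑' l : List V3, (lw l * vis e l) * (if ¬ good l then vis f l else 0) ^ 2 ≤
          ∑' l : List V3, (κ : ℝ≥0∞) * n * (lw l * (vis e l * vis2 (gR s n) l)) := by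
        refine ENNReal.tsum_le_tsum fun l => ?_
        by_cases h6 : good l
        · rw [if_neg (not_not.2 h6), zero_pow two_ne_zero, mul_zero]
          exact zero_le
        · rw [if_pos h6]
          have h7 : vis f l ^ 2 ≤ (κ : ℝ≥0∞) * n * vis2 (gR s n) l := (not_le.1 h6).le
          calc (lw l * vis e l) * vis f l ^ 2 ≤
                (lw l * vis e l) * ((κ : ℝ≥0∞) * n * vis2 (gR s n) l) := mul_le_mul_right h7 _
            _ = (κ : ℝ≥0∞) * n * (lw l * (vis e l * vis2 (gR s n) l)) := by ring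
      refine h5.trans ?_
      rw [ENNReal.tsum_mul_left]
      refine mul_le_mul_right (hup.trans ?_) _
      exact mul_le_mul_right (mul_le_mul_right hE _) _
    refine (mul_le_mul' h3 h4).trans ?_
    -- arithmetic
    have hn1 : (n : ℝ≥0∞) * (n : ℝ≥0∞)⁻¹ = 1 := ENNReal.mul_inv_cancel hn0 hntop
    have hκD : (κ : ℝ≥0∞) * (108 * (C + 1) * (C₀ : ℝ≥0∞) ^ 3) = ((4 * c ^ 2 : ℝ≥0) : ℝ≥0∞) ^ 2 := by
      have h5 : κ * D = (4 * c ^ 2) ^ 2 := div_mul_cancel₀ _ hD0.ne'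
      have h6 : ((κ * D : ℝ≥0) : ℝ≥0∞) = (((4 * c ^ 2) ^ 2 : ℝ≥0) : ℝ≥0∞) := by rw [h5]
      rw [hD] at h6
      push_cast at h6 ⊢
      exact h6
    have h8 : (C₀ : ℝ≥0∞) / (n : ℝ≥0∞) * W * ((κ : ℝ≥0∞) * n * (2 * ((C₀ : ℝ≥0∞) / (n : ℝ≥0∞)) ^ 2 *
          (W * (54 * (C + 1) * (n : ℝ≥0∞) ^ 4)))) =
        ((κ : ℝ≥0∞) * (108 * (C + 1) * (C₀ : ℝ≥0∞) ^ 3)) * (n * (n : ℝ≥0∞)⁻¹) ^ 3 *
          (n * W) ^ 2 := by
      rw [div_eq_mul_inv]
      ring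
    rw [h8, hn1, one_pow, mul_one, hκD]
    refine le_of_eq ?_
    ring
  have hB1 : B ≤ ((4 * c ^ 2 : ℝ≥0) : ℝ≥0∞) * n * W := by
    by_contra h
    exact absurd hB2 (not_le.2 (ENNReal.pow_right_strictMono two_ne_zero (not_le.1 h)))
  -- conclusion
  have hlow2 : ((4 * c ^ 2 : ℝ≥0) : ℝ≥0∞) * n * W + ((4 * c ^ 2 : ℝ≥0) : ℝ≥0∞) * n * W ≤
      ((c : ℝ≥0∞) / (n : ℝ≥0∞)) ^ 2 * (W * mass f) := by
    rw [hf, hla_mass hCNT]
    have h5 : ((8 * n ^ 3 : ℕ) : ℝ≥0∞) ≤ (((2 * n + 1) ^ 3 : ℕ) : ℝ≥0∞) := by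
      have h6 : (2 * n) ^ 3 ≤ (2 * n + 1) ^ 3 := Nat.pow_le_pow_left (by omega) 3
      have h7 : (2 * n) ^ 3 = 8 * n ^ 3 := by ring
      rw [h7] at h6
      exact_mod_cast h6
    have hn1 : (n : ℝ≥0∞) * (n : ℝ≥0∞)⁻¹ = 1 := ENNReal.mul_inv_cancel hn0 hntop
    have h9 : ((4 * c ^ 2 : ℝ≥0) : ℝ≥0∞) * n * W + ((4 * c ^ 2 : ℝ≥0) : ℝ≥0∞) * n * W =
        ((c : ℝ≥0∞) / (n : ℝ≥0∞)) ^ 2 * (W * ((8 * n ^ 3 : ℕ) : ℝ≥0∞)) := by
      have h10 : ((c : ℝ≥0∞) / (n : ℝ≥0∞)) ^ 2 * (W * ((8 * n ^ 3 : ℕ) : ℝ≥0∞)) =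
          8 * (c : ℝ≥0∞) ^ 2 * (n * W) * (n * (n : ℝ≥0∞)⁻¹) ^ 2 := by
        rw [div_eq_mul_inv]
        push_cast
        ring
      rw [h10, hn1, one_pow, mul_one]
      push_cast
      ring
    rw [h9]
    exact mul_le_mul_right (mul_le_mul_right h5 _) _
  have hfin : ((4 * c ^ 2 : ℝ≥0) : ℝ≥0∞) * n * W ≠ ⊤ :=
    ENNReal.mul_ne_top (ENNReal.mul_ne_top ENNReal.coe_ne_top hntop) hW
  have hall : ((4 * c ^ 2 : ℝ≥0) : ℝ≥0∞) * n * W + ((4 * c ^ 2 : ℝ≥0) : ℝ≥0∞) * n * W ≤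
      G + ((4 * c ^ 2 : ℝ≥0) : ℝ≥0∞) * n * W :=
    hlow2.trans (hTlow.trans (hTGB.trans (add_le_add_right hB1 _)))
  exact (ENNReal.add_le_add_iff_right hfin).1 hall

end Pool.Agent.H20.LP
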