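import Pool.Agent.H62.LP.T1
import Pool.Agent.H62.LP.T2

/-!
Row LCR of rwl_modules (helper20): local crossings are as likely as crossings, up to a constant.
-/

set_option autoImplicit false

open MeasureTheory ProbabilityTheory Filter Topology
open scoped ENNReal NNReal

namespace Pool.Agent.H20.LP

open Pool.Agent.H62.LP

theorem lcr_adj_symm {d : ℕ} {x y : Vt d} (h : Adj x y) : Adj y x := by
  unfold Adj at *
  rw [← h]
  exact Finset.sum_congr rfl fun i _ => abs_sub_comm _ _

instance lcr_countable : Countable Lp := inferInstanceAs (Countable (Quotient _))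

theorem lcr_conn_mono {S T : Set Lp} (h : S ⊆ T) {x y : V3} (hx : Conn S x y) : Conn T x y := by
  refine Relation.ReflTransGen.mono ?_ _ _ hx
  rintro u v ⟨c, hc, hu, hv⟩
  exact ⟨c, h hc, hu, hv⟩

theorem lcr_conn_symm {S : Set Lp} {x y : V3} (hx : Conn S x y) : Conn S y x := by
  unfold Conn at *
  induction hx with
  | refl => exact Relation.ReflTransGen.refl
  | tail _ h ih =>
    obtain ⟨c, hc, hu, hv⟩ := h
    exact Relation.ReflTransGen.head ⟨c, hc, hv, hu⟩ ih

/-- the set of the vertices of an open path, up to the exit from the ball -/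
theorem lcr_path (hADJ : T_ADJ) (m : ℕ) (N : Lp → ℕ) (hN : ∀ c, 1 ≤ N c → mu c ≠ 0) {x y : V3}
    (hxy : Relation.ReflTransGen (Open N) x y) (hy : m ≤ nm y) :
    ∃ (D : Finset V3) (F : Finset Lp), x ∈ D ∧ IsConn (D : Set V3) ∧ (F : Set Lp) ⊆ sp N ∧
      (∀ c ∈ F, ∃ u ∈ c, nm u ≤ m) ∧ (∃ u ∈ D, m ≤ nm u) ∧
      ∀ u ∈ D, ∀ v ∈ D, Conn (F : Set Lp) u v := by
  classical
  have hsingle : ∀ z : V3, m ≤ nm z → ∃ (D : Finset V3) (F : Finset Lp), z ∈ D ∧
      IsConn (D : Set V3) ∧ (F : Set Lp) ⊆ sp N ∧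
      (∀ c ∈ F, ∃ u ∈ c, nm u ≤ m) ∧ (∃ u ∈ D, m ≤ nm u) ∧
      ∀ u ∈ D, ∀ v ∈ D, Conn (F : Set Lp) u v := by
    intro z hz
    refine ⟨{z}, ∅, Finset.mem_singleton_self z, ?_, ?_, ?_, ⟨z, Finset.mem_singleton_self z, hz⟩,
      ?_⟩
    · intro u hu v hv
      rw [Finset.mem_coe, Finset.mem_singleton] at hu hv
      rw [hu, hv]
    · rw [Finset.coe_empty]
      exact Set.empty_subset _
    · intro c hc
      exact absurd hc (Finset.notMem_empty c)
    · intro u hu v hv
      rw [Finset.mem_singleton] at hu hv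
      rw [hu, hv]
      exact Relation.ReflTransGen.refl
  induction hxy using Relation.ReflTransGen.head_induction_on with
  | refl => exact hsingle y hy
  | head h _ ih =>
    rename_i a b _
    by_cases ha : m ≤ nm a
    · exact hsingle a ha
    obtain ⟨D, F, h1, h2, h3, h4, ⟨u₀, hu₀, hu₀'⟩, h6⟩ := ih
    obtain ⟨c, hc, ht⟩ := h
    obtain ⟨hab, hac, hbc⟩ := (hADJ 3 c (hN c hc)).1 a b ht
    have hab' := lcr_adj_symm hab
    refine ⟨insert a D, insert c F, Finset.mem_insert_self a D, ?_, ?_, ?_,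
      ⟨u₀, Finset.mem_insert_of_mem hu₀, hu₀'⟩, ?_⟩
    · -- connected
      have hmono : ∀ u ∈ D, ∀ v ∈ D, Relation.ReflTransGen
          (fun u v => u ∈ ((insert a D : Finset V3) : Set V3) ∧
            v ∈ ((insert a D : Finset V3) : Set V3) ∧ Adj u v) u v := by
        intro u hu v hv
        refine Relation.ReflTransGen.mono ?_ _ _ (h2 u hu v hv)
        rintro p q ⟨hp, hq, hpq⟩
        exact ⟨Finset.mem_coe.2 (Finset.mem_insert_of_mem (Finset.mem_coe.1 hp)),
          Finset.mem_coe.2 (Finset.mem_insert_of_mem (Finset.mem_coe.1 hq)), hpq⟩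
      have ha' : a ∈ ((insert a D : Finset V3) : Set V3) :=
        Finset.mem_coe.2 (Finset.mem_insert_self a D)
      have hb' : b ∈ ((insert a D : Finset V3) : Set V3) :=
        Finset.mem_coe.2 (Finset.mem_insert_of_mem h1)
      intro u hu v hv
      rw [Finset.mem_coe, Finset.mem_insert] at hu hv
      rcases hu with rfl | hu <;> rcases hv with rfl | hv
      · exact Relation.ReflTransGen.refl
      · exact Relation.ReflTransGen.head ⟨ha', hb', hab⟩ (hmono b h1 v hv)
      · exact Relation.ReflTransGen.tail (hmono u hu b h1) ⟨hb', ha', hab'⟩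
      · exact hmono u hu v hv
    · intro e he
      rw [Finset.mem_coe, Finset.mem_insert] at he
      rcases he with rfl | he
      · exact hc
      · exact h3 he
    · intro e he
      rw [Finset.mem_insert] at he
      rcases he with rfl | he
      · exact ⟨a, hac, by omega⟩
      · exact h4 e he
    · have hsub : (F : Set Lp) ⊆ ((insert c F : Finset Lp) : Set Lp) := fun e he =>
        Finset.mem_coe.2 (Finset.mem_insert_of_mem (Finset.mem_coe.1 he))
      have hcab : Conn ((insert c F : Finset Lp) : Set Lp) a b :=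
        Relation.ReflTransGen.single
          ⟨c, Finset.mem_coe.2 (Finset.mem_insert_self c F), hac, hbc⟩
      intro u hu v hv
      rw [Finset.mem_insert] at hu hv
      rcases hu with rfl | hu <;> rcases hv with rfl | hv
      · exact Relation.ReflTransGen.refl
      · exact Relation.ReflTransGen.trans hcab (lcr_conn_mono hsub (h6 b h1 v hv))
      · exact Relation.ReflTransGen.trans (lcr_conn_mono hsub (h6 u hu b h1)) (lcr_conn_symm hcab)
      · exact lcr_conn_mono hsub (h6 u hu v hv)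

theorem lcr_finitary (z : V3) (n m r : ℕ) (S : Set Lp) :
    CrL z n m r S ↔ ∃ F : Finset Lp, (F : Set Lp) ⊆ S ∧ CrL z n m r F := by
  constructor
  · rintro ⟨p, hp, hpS⟩
    exact ⟨p.2, hpS, p, hp, subset_rfl⟩
  · rintro ⟨F, hF, p, hp, hpF⟩
    exact ⟨p, hp, hpF.trans hF⟩

/-- translation of crossings -/
theorem lcr_trans (z : V3) (n m r : ℕ) (N : Lp → ℕ)
    (h : CrL 0 n m r (sp fun c : Lp => N (c.map (· + z)))) : CrL z n m r (sp N) := by
  classical
  obtain ⟨p, ⟨h1, h2, ⟨u₁, hu₁, hu₁'⟩, ⟨u₂, hu₂, hu₂'⟩, h5⟩, h6⟩ := h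
  have hmem : ∀ (c : Lp) (u : V3), u ∈ c.map (· + z) ↔ ∃ v ∈ c, v + z = u := by
    intro c u
    rw [Cycle.mem_map]
  refine ⟨(p.1.image (· + z), p.2.image fun c : Lp => c.map (· + z)), ⟨?_, ?_, ?_, ?_, ?_⟩, ?_⟩
  · intro c hc u hu
    rw [Finset.mem_image] at hc
    obtain ⟨c', hc', rfl⟩ := hc
    obtain ⟨v, hv, rfl⟩ := (hmem c' u).1 hu
    have := h1 c' hc' v hv
    rw [sub_zero] at this
    rw [add_sub_cancel_right]
    exact this
  · intro u hu v hv
    rw [Finset.mem_coe, Finset.mem_image] at hu hv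
    obtain ⟨u', hu', rfl⟩ := hu
    obtain ⟨v', hv', rfl⟩ := hv
    have h7 := h2 u' (Finset.mem_coe.2 hu') v' (Finset.mem_coe.2 hv')
    refine Relation.ReflTransGen.lift (· + z) ?_ _ _ h7
    rintro a b ⟨ha, hb, hab⟩
    refine ⟨Finset.mem_coe.2 (Finset.mem_image_of_mem _ (Finset.mem_coe.1 ha)),
      Finset.mem_coe.2 (Finset.mem_image_of_mem _ (Finset.mem_coe.1 hb)), ?_⟩
    unfold Adj at *
    rw [← hab]
    refine Finset.sum_congr rfl fun i _ => ?_
    change |(a i + z i) - (b i + z i)| = |a i - b i|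
    rw [add_sub_add_right_eq_sub]
  · refine ⟨u₁ + z, Finset.mem_image_of_mem _ hu₁, ?_⟩
    rw [add_sub_cancel_right]
    rwa [sub_zero] at hu₁'
  · refine ⟨u₂ + z, Finset.mem_image_of_mem _ hu₂, ?_⟩
    rw [add_sub_cancel_right]
    rwa [sub_zero] at hu₂'
  · intro u hu v hv
    rw [Finset.mem_image] at hu hv
    obtain ⟨u', hu', rfl⟩ := hu
    obtain ⟨v', hv', rfl⟩ := hv
    refine Relation.ReflTransGen.lift (· + z) ?_ _ _ (h5 u' hu' v' hv')
    rintro a b ⟨c, hc, ha, hb⟩
    exact ⟨c.map (· + z), Finset.mem_coe.2 (Finset.mem_image_of_mem _ (Finset.mem_coe.1 hc)),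
      (hmem c _).2 ⟨a, ha, rfl⟩, (hmem c _).2 ⟨b, hb, rfl⟩⟩
  · intro c hc
    rw [Finset.mem_coe, Finset.mem_image] at hc
    obtain ⟨c', hc', rfl⟩ := hc
    exact h6 (Finset.mem_coe.2 hc')

theorem pf_LCR (hVOI : T_VOI) (hPRS : T_PRS) (hADJ : T_ADJ) (hTRL : T_TRL) (hIND : T_IND)
    (hFMS : T_FMS) : T_LCR := by
  classical
  intro K C hK hC α z n m hm hnm
  set q : Lp → ℝ≥0 := inten 3 α with hq
  have hsoup : soup 3 α = pois q := rfl
  -- measurability
  have hmeas : ∀ z : V3, MeasurableSet {N : Lp → ℕ | ¬ CrL z n m (K * m) (sp N)} := fun z =>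
    (hFMS Lp (CrL z n m (K * m)) (lcr_finitary z n m (K * m))).compl
  -- the translation
  have htrans : soup 3 α {N | ¬ CrL z n m (K * m) (sp N)} ≤
      soup 3 α {N | ¬ CrL 0 n m (K * m) (sp N)} := by
    have hφ : Measurable fun (N : Lp → ℕ) (c : Lp) => N (c.map (· + z)) :=
      measurable_pi_lambda _ fun c => measurable_pi_apply _
    have h1 : soup 3 α {N | ¬ CrL 0 n m (K * m) (sp N)} =
        soup 3 α {N : Lp → ℕ | ¬ CrL 0 n m (K * m) (sp fun c : Lp => N (c.map (· + z)))} := by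
      conv_lhs => rw [← (hTRL 3 z).2 α]
      rw [Measure.map_apply hφ (hmeas 0)]
      rfl
    rw [h1]
    refine measure_mono fun N hN hcr => hN ?_
    exact lcr_trans z n m (K * m) N hcr
  -- the two events
  set I₁ : Set Lp := {c | (∃ x ∈ c, nm (x - 0) ≤ m) ∧ ∃ y ∈ c, K * m < nm (y - 0)} with hI₁
  set I₂ : Set Lp := {c | ∀ x ∈ c, nm (x - 0) ≤ K * m} with hI₂
  set E₁ : Set (Lp → ℕ) := {N | ∀ c ∈ I₁, N c = 0} with hE₁
  set E₂ : Set (Lp → ℕ) := {N | ¬ CrL 0 n m (K * m) (sp N)} with hE₂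
  have hE₁meas : MeasurableSet E₁ := by
    have h1 : E₁ = ⋂ c : Lp, ⋂ _ : c ∈ I₁, {N | N c = 0} := by
      ext N
      simp [hE₁]
    rw [h1]
    refine MeasurableSet.iInter fun c => MeasurableSet.iInter fun _ => ?_
    exact measurable_pi_apply c (measurableSet_singleton 0)
  have hind : pois q (E₁ ∩ E₂) = pois q E₁ * pois q E₂ := by
    have h1 := hIND Lp q Bool (fun b => if b then I₁ else I₂) (fun b => if b then E₁ else E₂)
      ?_ ?_ ?_ Finset.univ
    · have h2 : (⋂ i ∈ (Finset.univ : Finset Bool), (fun b => if b then E₁ else E₂) i) =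
          E₁ ∩ E₂ := by
        ext N
        simp only [Finset.mem_univ, Set.iInter_true, Set.mem_iInter, Bool.forall_bool,
          Set.mem_inter_iff]
        exact ⟨fun h => ⟨by simpa using h.2, by simpa using h.1⟩,
          fun h => ⟨by simpa using h.2, by simpa using h.1⟩⟩
      rw [h2] at h1
      rw [h1, Fintype.prod_bool]
      simp
    · have hdis : Disjoint I₁ I₂ := by
        rw [Set.disjoint_left]
        rintro c ⟨-, y, hy, hy'⟩ hc
        exact absurd (hc y hy) (not_le.2 hy')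
      intro i j hij
      cases i <;> cases j
      · exact absurd rfl hij
      · exact hdis.symm
      · exact hdis
      · exact absurd rfl hij
    · intro i
      cases i
      · exact hmeas 0
      · exact hE₁meas
    · intro i N N' h
      cases i
      · have h' : ∀ c ∈ I₂, N c = N' c := h
        have key : ∀ N N' : Lp → ℕ, (∀ c ∈ I₂, N c = N' c) → CrL 0 n m (K * m) (sp N) →
            CrL 0 n m (K * m) (sp N') := by
          rintro N N' h ⟨p, hp, hpN⟩
          refine ⟨p, hp, fun c hc => ?_⟩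
          have h3 : 1 ≤ N c := hpN hc
          have h4 : c ∈ I₂ := hp.1 c (Finset.mem_coe.1 hc)
          change 1 ≤ N' c
          rw [← h c h4]
          exact h3
        exact ⟨fun h3 h4 => h3 (key N' N (fun c hc => (h' c hc).symm) h4),
          fun h3 h4 => h3 (key N N' h' h4)⟩
      · have h' : ∀ c ∈ I₁, N c = N' c := h
        exact ⟨fun h3 c hc => by rw [← h' c hc]; exact h3 c hc,
          fun h3 c hc => by rw [h' c hc]; exact h3 c hc⟩
  -- the void probability
  have hvoid : ENNReal.ofReal (Real.exp (-(α * C))) ≤ pois q E₁ := by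
    refine (hVOI Lp q I₁ (α * C) (by positivity)).2 ?_
    have h1 : ∀ c, (@ite ℝ≥0∞ (c ∈ I₁) (Classical.propDecidable (c ∈ I₁)) (q c : ℝ≥0∞) 0) ≤
        (α : ℝ≥0∞) * (if (∃ x ∈ c, nm (x - 0) ≤ m) ∧ (∃ y ∈ c, K * m < nm (y - 0)) then mu c
          else 0) := by
      intro c
      by_cases hc : (∃ x ∈ c, nm (x - 0) ≤ m) ∧ (∃ y ∈ c, K * m < nm (y - 0))
      · have hc' : c ∈ I₁ := hc
        rw [if_pos hc', if_pos hc, hq]
        unfold inten
        rw [ENNReal.coe_mul]
        exact mul_le_mul_right ENNReal.coe_toNNReal_le_self _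
      · have hc' : c ∉ I₁ := hc
        rw [if_neg hc']
        exact zero_le
    refine (ENNReal.tsum_le_tsum h1).trans ?_
    rw [ENNReal.tsum_mul_left]
    refine (mul_le_mul_right (hC 0 m hm) _).trans ?_
    rw [← ENNReal.coe_mul, ← NNReal.coe_mul, ENNReal.ofReal_coe_nnreal]
  -- the deterministic part
  have hdet : pois q (E₁ ∩ E₂) ≤ pois q {N | ¬ Cross n m N} := by
    refine measure_mono_ae ?_
    filter_upwards [hPRS Lp q] with N hN hNE hcross
    obtain ⟨hN1, hN2⟩ := hNE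
    apply hN2
    obtain ⟨x, y, hx, hy, hxy⟩ := hcross
    have hmu : ∀ c, 1 ≤ N c → mu c ≠ 0 := by
      intro c hc h0
      apply hN c hc
      rw [hq]
      unfold inten
      rw [h0, ENNReal.toNNReal_zero, mul_zero]
    obtain ⟨D, F, h1, h2, h3, h4, h5, h6⟩ := lcr_path hADJ m N hmu hxy hy.ge
    refine ⟨(D, F), ⟨?_, h2, ⟨x, h1, ?_⟩, ?_, h6⟩, h3⟩
    · intro c hc u hu
      by_contra hlt
      obtain ⟨v, hv, hv'⟩ := h4 c hc
      have h7 : c ∈ I₁ := ⟨⟨v, hv, by rwa [sub_zero]⟩, u, hu, not_le.1 hlt⟩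
      have h8 : N c = 0 := hN1 c h7
      have h9 : 1 ≤ N c := h3 (Finset.mem_coe.2 hc)
      omega
    · rwa [sub_zero]
    · obtain ⟨u, hu, hu'⟩ := h5
      exact ⟨u, hu, by rwa [sub_zero]⟩
  calc ENNReal.ofReal (Real.exp (-(α * C))) * soup 3 α {N | ¬ CrL z n m (K * m) (sp N)} ≤
        pois q E₁ * pois q E₂ := mul_le_mul' hvoid htrans
    _ = pois q (E₁ ∩ E₂) := hind.symm
    _ ≤ soup 3 α {N | ¬ Cross n m N} := hdet

end Pool.Agent.H20.LP
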