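import Pool.Agent.H62.LP.T3

/-!
Row SHL of rwl_modules (helper20): a set with few spots which meets the smaller ball contains it.
-/

set_option autoImplicit false

open MeasureTheory ProbabilityTheory Filter Topology
open scoped ENNReal NNReal

namespace Pool.Agent.H20.LP

open Pool.Agent.H62.LP

theorem shl_nm {d : ℕ} (x : Vt d) (r : ℕ) : nm x ≤ r ↔ ∀ i, (x i).natAbs ≤ r := by
  unfold nm
  rw [Finset.sup_le_iff]
  exact ⟨fun h i => h i (Finset.mem_univ i), fun h i _ => h i⟩

theorem shl_eq (x : V3) (r : ℕ) :
    nm x = r ↔ (∀ i, (x i).natAbs ≤ r) ∧ ∃ i, (x i).natAbs = r := by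
  constructor
  · intro h
    refine ⟨(shl_nm x r).1 h.le, ?_⟩
    obtain ⟨i, -, hi⟩ := Finset.exists_mem_eq_sup (Finset.univ : Finset (Fin 3))
      Finset.univ_nonempty (fun i => (x i).natAbs)
    refine ⟨i, ?_⟩
    rw [← h]
    exact hi.symm
  · rintro ⟨h1, i, hi⟩
    refine le_antisymm ((shl_nm x r).2 h1) ?_
    rw [← hi]
    exact Finset.le_sup (f := fun i => (x i).natAbs) (Finset.mem_univ i)

theorem shl_fin (L : ℕ) : {z : V3 | nm z ≤ L}.Finite := by
  refine (Set.Finite.pi' (ι := Fin 3) (κ := fun _ => ℤ) (t := fun _ => Set.Icc (-(L : ℤ)) L)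
    (fun _ => Set.finite_Icc _ _)).subset ?_
  intro z hz i
  have h := (shl_nm z L).1 hz i
  rw [Set.mem_Icc]
  omega

/-- raising one coordinate -/
theorem shl_raise (r : ℕ) (Q : V3 → Prop)
    (hQ : ∀ w w', nm w = r → nm w' = r → nm (w' - w) ≤ 1 → (Q w ↔ Q w')) (i j : Fin 3)
    (hij : j ≠ i) (w : V3) (hw : ∀ k, (w k).natAbs ≤ r) (hi : (w i).natAbs = r) (k : ℕ) :
    w j + k ≤ r → (Q w ↔ Q (Function.update w j (w j + k))) := by
  induction k with
  | zero =>
    intro _
    have : Function.update w j (w j + (0 : ℕ)) = w := by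
      rw [Nat.cast_zero, add_zero, Function.update_eq_self]
    rw [this]
  | succ k ih =>
    intro hk
    push_cast at hk
    refine (ih (by omega)).trans (hQ _ _ ?_ ?_ ?_)
    · rw [shl_eq]
      refine ⟨fun e => ?_, i, ?_⟩
      · by_cases he : e = j
        · subst he
          rw [Function.update_self]
          have := hw e
          omega
        · rw [Function.update_of_ne he]
          exact hw e
      · rw [Function.update_of_ne hij.symm]
        exact hi
    · rw [shl_eq]
      refine ⟨fun e => ?_, i, ?_⟩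
      · by_cases he : e = j
        · subst he
          rw [Function.update_self]
          have := hw e
          push_cast
          omega
        · rw [Function.update_of_ne he]
          exact hw e
      · rw [Function.update_of_ne hij.symm]
        exact hi
    · rw [shl_nm]
      intro e
      rw [Pi.sub_apply]
      by_cases he : e = j
      · subst he
        rw [Function.update_self, Function.update_self]
        push_cast
        omega
      · rw [Function.update_of_ne he, Function.update_of_ne he, sub_self]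
        simp

theorem shl_raise' (r : ℕ) (Q : V3 → Prop)
    (hQ : ∀ w w', nm w = r → nm w' = r → nm (w' - w) ≤ 1 → (Q w ↔ Q w')) (i j : Fin 3)
    (hij : j ≠ i) (w : V3) (hw : ∀ k, (w k).natAbs ≤ r) (hi : (w i).natAbs = r) :
    Q w ↔ Q (Function.update w j (r : ℤ)) := by
  have h1 := hw j
  have h2 := shl_raise r Q hQ i j hij w hw hi ((r : ℤ) - w j).toNat (by omega)
  have h3 : w j + (((r : ℤ) - w j).toNat : ℕ) = (r : ℤ) := by omega
  rwa [h3] at h2

theorem shl_dec : ∀ i : Fin 3, i + 1 ≠ i ∧ i + 2 ≠ i ∧ i + 2 ≠ i + 1 ∧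
    ∀ e : Fin 3, e = i ∨ e = i + 1 ∨ e = i + 2 := by
  decide

/-- the sphere is connected -/
theorem shl_sphere (r : ℕ) (Q : V3 → Prop)
    (hQ : ∀ w w', nm w = r → nm w' = r → nm (w' - w) ≤ 1 → (Q w ↔ Q w')) (w : V3)
    (hw : nm w = r) : Q w ↔ Q (fun _ => (r : ℤ)) := by
  obtain ⟨h1, i, hi⟩ := (shl_eq w r).1 hw
  have hne1 : i + 1 ≠ i := (shl_dec i).1
  have hne2 : i + 2 ≠ i := (shl_dec i).2.1
  have hne3 : i + 2 ≠ i + 1 := (shl_dec i).2.2.1
  have hall : ∀ e : Fin 3, e = i ∨ e = i + 1 ∨ e = i + 2 := (shl_dec i).2.2.2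
  have s1 := shl_raise' r Q hQ i (i + 1) hne1 w h1 hi
  set w1 := Function.update w (i + 1) (r : ℤ) with hw1
  have b1 : ∀ k, (w1 k).natAbs ≤ r := by
    intro k
    rw [hw1]
    by_cases hk : k = i + 1
    · subst hk
      rw [Function.update_self]
      omega
    · rw [Function.update_of_ne hk]
      exact h1 k
  have c1 : (w1 i).natAbs = r := by
    rw [hw1, Function.update_of_ne hne1.symm]
    exact hi
  have d1 : w1 (i + 1) = r := by rw [hw1, Function.update_self]
  have s2 := shl_raise' r Q hQ i (i + 2) hne2 w1 b1 c1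
  set w2 := Function.update w1 (i + 2) (r : ℤ) with hw2
  have b2 : ∀ k, (w2 k).natAbs ≤ r := by
    intro k
    rw [hw2]
    by_cases hk : k = i + 2
    · subst hk
      rw [Function.update_self]
      omega
    · rw [Function.update_of_ne hk]
      exact b1 k
  have d2 : w2 (i + 1) = r := by
    rw [hw2, Function.update_of_ne hne3.symm]
    exact d1
  have e2 : w2 (i + 2) = r := by rw [hw2, Function.update_self]
  have s3 := shl_raise' r Q hQ (i + 1) i hne1.symm w2 b2 (by rw [d2]; omega)
  have hfin : Function.update w2 i (r : ℤ) = fun _ => (r : ℤ) := by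
    funext k
    rcases hall k with hk | hk | hk
    · subst hk
      rw [Function.update_self]
    · rw [hk, Function.update_of_ne hne1]
      exact d2
    · rw [hk, Function.update_of_ne hne2]
      exact e2
  rw [hfin] at s3
  exact s1.trans (s2.trans s3)

/-- a set closed under small steps inside a ball -/
theorem shl_ball (R : ℕ) (A : Set V3)
    (hA : ∀ u v, nm u ≤ R → nm v ≤ R → nm (u - v) ≤ 1 → u ∈ A → v ∈ A) (k : ℕ) :
    ∀ x y, nm x ≤ R → nm y ≤ R → nm (x - y) ≤ k → x ∈ A → y ∈ A := by
  induction k with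
  | zero =>
    intro x y _ _ hxy hx
    have h1 : x = y := by
      funext i
      have := (shl_nm _ _).1 hxy i
      rw [Pi.sub_apply] at this
      omega
    rwa [← h1]
  | succ k ih =>
    intro x y hx hy hxy hxA
    let u : V3 := fun i => if x i < y i then x i + 1 else if y i < x i then x i - 1 else x i
    have hx' := (shl_nm _ _).1 hx
    have hy' := (shl_nm _ _).1 hy
    have hxy' := (shl_nm _ _).1 hxy
    have hu : nm u ≤ R := by
      rw [shl_nm]
      intro i
      change (if x i < y i then x i + 1 else if y i < x i then x i - 1 else x i).natAbs ≤ R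
      have h1 := hx' i
      have h2 := hy' i
      split_ifs <;> omega
    have hxu : nm (x - u) ≤ 1 := by
      rw [shl_nm]
      intro i
      change (x i - (if x i < y i then x i + 1 else if y i < x i then x i - 1 else x i)).natAbs ≤ 1
      split_ifs <;> omega
    have huy : nm (u - y) ≤ k := by
      rw [shl_nm]
      intro i
      change ((if x i < y i then x i + 1 else if y i < x i then x i - 1 else x i) - y i).natAbs ≤ k
      have h1 := hxy' i
      rw [Pi.sub_apply] at h1
      split_ifs <;> omega
    exact ih u y hu hy huy (hA x u hx hu hxu hxA)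

theorem shl_add (x y : V3) : nm (x + y) ≤ nm x + nm y := by
  rw [shl_nm]
  intro i
  have h1 := (shl_nm x (nm x)).1 le_rfl i
  have h2 := (shl_nm y (nm y)).1 le_rfl i
  rw [Pi.add_apply]
  omega

theorem pf_SHL : T_SHL := by
  classical
  intro β T hT L b t A hL hb ht hspot hex y hy
  have hfin : (spot T L A).Finite := (shl_fin L).subset fun z hz => hz.1
  -- the step
  have hstep : ∀ x v, nm x ≤ L - b → nm v ≤ L - b → nm (x - v) ≤ 1 → x ∈ A → v ∈ A := by
    intro x v hx hv hxv hxA
    have hbL : b ≤ L := by
      obtain ⟨x', -, hx'⟩ := hex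
      omega
    have hxL : nm x ≤ L := by omega
    have hvL : nm v ≤ L := by omega
    -- a sphere without spots
    obtain ⟨r, hr, hrs⟩ : ∃ r ∈ Finset.Icc 2 b, ∀ z ∈ spot T L A, nm (z - x) ≠ r := by
      by_contra hno
      push Not at hno
      have h1 : Finset.Icc 2 b ⊆ hfin.toFinset.image fun z => nm (z - x) := by
        intro r hr
        obtain ⟨z, hz, hzr⟩ := hno r hr
        exact Finset.mem_image.2 ⟨z, hfin.mem_toFinset.2 hz, hzr⟩
      have h2 := Finset.card_le_card h1
      have h3 : (hfin.toFinset.image fun z => nm (z - x)).card ≤ hfin.toFinset.card :=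
        Finset.card_image_le
      rw [← Set.ncard_eq_toFinset_card _ hfin] at h3
      rw [Nat.card_Icc] at h2
      omega
    rw [Finset.mem_Icc] at hr
    have hSL : ∀ z, nm (z - x) = r → nm z ≤ L := by
      intro z hz
      have h1 := shl_add (z - x) x
      rw [sub_add_cancel] at h1
      omega
    have hself : ∀ z, nm z ≤ L → z ∈ T z := fun z hz => hT.self z (by omega)
    -- the sphere is in A
    have hsphA : ∀ z, nm (z - x) = r → z ∈ A := by
      have hQ : ∀ w w' : V3, nm w = r → nm w' = r → nm (w' - w) ≤ 1 →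
          (x + w ∈ A ↔ x + w' ∈ A) := by
        have hone : ∀ w w' : V3, nm w = r → nm w' = r → nm (w' - w) ≤ 1 →
            x + w ∈ A → x + w' ∈ A := by
          intro w w' hw hw' hww hwA
          by_contra hnot
          have hzL : nm (x + w) ≤ L := hSL _ (by rwa [add_sub_cancel_left])
          have hzL' : nm (x + w') ≤ L := hSL _ (by rwa [add_sub_cancel_left])
          refine hrs (x + w) ⟨hzL, x + w, x + w', hwA, hnot, hzL, hzL', hself _ hzL, x + w',
            hself _ hzL', ?_⟩ (by rwa [add_sub_cancel_left])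
          rwa [add_sub_add_left_eq_sub]
        intro w w' hw hw' hww
        refine ⟨hone w w' hw hw' hww, hone w' w hw' hw ?_⟩
        rw [shl_nm] at hww ⊢
        intro i
        have := hww i
        rw [Pi.sub_apply] at this ⊢
        omega
      obtain ⟨z₀, hz₀T, hz₀r⟩ := hT.sph x x (by omega) (by omega) (by
        rw [sub_self, shl_nm]
        intro i
        simp) r hr.1 (by omega)
      have hz₀L := hSL z₀ hz₀r
      have hz₀A : z₀ ∈ A := by
        by_contra hnot
        refine hrs z₀ ⟨hz₀L, x, z₀, hxA, hnot, hxL, hz₀L, hz₀T, z₀, hself _ hz₀L, ?_⟩ hz₀r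
        rw [sub_self, shl_nm]
        intro i
        simp
      intro z hz
      have h1 := shl_sphere r (fun w => x + w ∈ A) hQ (z₀ - x) hz₀r
      have h2 := shl_sphere r (fun w => x + w ∈ A) hQ (z - x) hz
      have h3 : x + (z₀ - x) ∈ A ↔ x + (z - x) ∈ A := h1.trans h2.symm
      rw [add_sub_cancel, add_sub_cancel] at h3
      exact h3.1 hz₀A
    -- the neighbour
    obtain ⟨z, hzT, hzr⟩ := hT.sph x v (by omega) (by omega) hxv r hr.1 (by omega)
    have hzL := hSL z hzr
    by_contra hnot
    refine hrs z ⟨hzL, z, v, hsphA z hzr, hnot, hzL, hvL, hself _ hzL, z, hzT, ?_⟩ hzr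
    rw [sub_self, shl_nm]
    intro i
    simp
  obtain ⟨x, hxA, hx⟩ := hex
  exact shl_ball (L - b) A hstep (nm (x - y)) x y (by omega) (by omega) le_rfl hxA

end Pool.Agent.H20.LP
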