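import Pool.Agent.H62.LP.T1
import Pool.Agent.H62.LP.T4
import Pool.Agent.H20.LP.SHL

/-!
Row LKP of rwl_modules (helper20): the links satisfy the hypotheses of the merging lemma.
-/

set_option autoImplicit false

open MeasureTheory ProbabilityTheory Filter Topology
open scoped ENNReal NNReal

namespace Pool.Agent.H20.LP

open Pool.Agent.H62.LP

theorem lkp_comm {d : ℕ} (x y : Vt d) : nm (x - y) = nm (y - x) := by
  have h : ∀ x y : Vt d, nm (x - y) ≤ nm (y - x) := by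
    intro x y
    rw [shl_nm]
    intro i
    have h1 := (shl_nm (y - x) (nm (y - x))).1 le_rfl i
    rw [Pi.sub_apply] at h1 ⊢
    omega
  exact le_antisymm (h x y) (h y x)

theorem lkp_tri (x y z : V3) : nm (x - z) ≤ nm (x - y) + nm (y - z) := by
  have h := shl_add (x - y) (y - z)
  rwa [sub_add_sub_cancel] at h

theorem lkp_sc (n : ℕ) (w : V3) : nm (sc n w) = n * nm w := by
  have h1 : ∀ i, ((sc n w) i).natAbs = n * (w i).natAbs := by
    intro i
    change ((n : ℤ) * w i).natAbs = _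
    rw [Int.natAbs_mul, Int.natAbs_natCast]
  obtain ⟨h2, i, hi⟩ := (shl_eq w (nm w)).1 rfl
  rw [shl_eq]
  refine ⟨fun j => ?_, i, ?_⟩
  · rw [h1]
    exact Nat.mul_le_mul_left n (h2 j)
  · rw [h1, hi]

theorem lkp_sc_sub (n : ℕ) (a b : V3) : sc n a - sc n b = sc n (a - b) := by
  funext i
  change (n : ℤ) * a i - n * b i = n * (a i - b i)
  ring

theorem lkp_ne {c : Lp} (h : c ≠ Cycle.nil) : ∃ u, u ∈ c := by
  induction c using Quotient.inductionOn with
  | _ l =>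
    rcases l with _ | ⟨a, l⟩
    · exact absurd rfl h
    · exact ⟨a, List.mem_cons_self⟩

theorem lkp_ne' {c : Lp} {u : V3} (h : u ∈ c) : c ≠ Cycle.nil := by
  rintro rfl
  exact Cycle.notMem_nil u h

/-- links depend on the loops inside the ball -/
theorem lkp_congr {z : V3} {r : ℕ} {K₁ K₂ : Set V3} {N N' : Lp → ℕ}
    (h : ∀ c : Lp, c ≠ Cycle.nil → (∀ u ∈ c, nm (u - z) ≤ r) → N c = N' c)
    (hN : Lk z r K₁ K₂ (sp N)) : Lk z r K₁ K₂ (sp N') := by
  obtain ⟨x, hx, y, hy, hxy⟩ := hN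
  refine ⟨x, hx, y, hy, ?_⟩
  refine Relation.ReflTransGen.mono ?_ _ _ hxy
  rintro a b ⟨c, ⟨hc, hcr⟩, ha, hb⟩
  refine ⟨c, ⟨?_, hcr⟩, ha, hb⟩
  change 1 ≤ N' c
  rw [← h c (lkp_ne' ha) hcr]
  exact hc

theorem pf_LKP (hIND : T_IND) (hLME : T_LME) : T_LKP := by
  classical
  intro M' ε p hHGL n β r v d hn hβ hd
  obtain ⟨hp0, hp1, hG⟩ := hHGL
  haveI : Countable Lp := inferInstanceAs (Countable (Quotient _))
  refine ⟨fun x y z => (hLME _ _ _ _).1, fun Z x y hZ hsep => ?_⟩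
  set D : V3 → Set V3 := fun x => ((d x).1 : Set V3) with hD
  -- one link
  have hone : ∀ z ∈ Z, soup 3 ε {N | N ∉ LkB M' n v D (x z) (y z) z} ≤
      ENNReal.ofReal (1 - p) := by
    intro z hz
    obtain ⟨hz1, hx1, hy1, ⟨u₁, hu₁, hu₁'⟩, z', ⟨u₂, hu₂, hu₂'⟩, hzz⟩ := hZ z hz
    have hcr1 := hd (x z) hx1
    have hcr2 := hd (y z) hy1
    -- a far point
    have hfar : ∀ w : V3, nm w ≤ 2 * β → ∃ u ∈ D (w + v), 4 * (2 * n) ≤ nm (u - sc n (z + v)) := by
      intro w hw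
      obtain ⟨-, -, ⟨a, ha, ha'⟩, ⟨b, hb, hb'⟩, -⟩ := hd w hw
      by_cases h1 : 4 * (2 * n) ≤ nm (a - sc n (z + v))
      · exact ⟨a, ha, h1⟩
      · refine ⟨b, hb, ?_⟩
        have h2 := lkp_tri b a (sc n (w + v))
        have h3 := lkp_tri b (sc n (z + v)) a
        have h4 := lkp_comm (sc n (z + v)) a
        have h5 : 17 * n ≤ β * n := Nat.mul_le_mul_right n hβ
        omega
    have hnear2 : nm (u₂ - sc n (z + v)) ≤ 2 * (2 * n) := by
      have h1 := lkp_tri u₂ (sc n (z' + v)) (sc n (z + v))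
      rw [lkp_sc_sub, lkp_sc, add_sub_add_right_eq_sub] at h1
      have h2 : n * nm (z' - z) ≤ n * 1 := Nat.mul_le_mul_left n hzz
      have h3 : nm (u₂ - sc n (z' + v)) ≤ n := hu₂'
      omega
    have h1 := hG (2 * n) (sc n (z + v)) (D (x z + v)) (D (y z + v)) (by omega) hcr1.2.1 hcr2.2.1
      ⟨u₁, hu₁, by
        have h3 : nm (u₁ - sc n (z + v)) ≤ n := hu₁'
        omega⟩ (hfar _ hx1) ⟨u₂, hu₂, hnear2⟩ (hfar _ hy1)
    have hm : MeasurableSet {N : Lp → ℕ | Lk (sc n (z + v)) (M' * (2 * n)) (D (x z + v))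
      (D (y z + v)) (sp N)} := (hLME _ _ _ _).1
    have h2 : {N | N ∉ LkB M' n v D (x z) (y z) z} =
        {N : Lp → ℕ | Lk (sc n (z + v)) (M' * (2 * n)) (D (x z + v)) (D (y z + v)) (sp N)}ᶜ := rfl
    haveI : IsProbabilityMeasure (soup 3 ε) := by
      unfold soup
      infer_instance
    rw [h2, prob_compl_eq_one_sub hm, ENNReal.ofReal_sub _ hp0.le, ENNReal.ofReal_one]
    exact tsub_le_tsub_left h1 1
  -- independence
  let I : Z → Set Lp := fun z => {c | c ≠ Cycle.nil ∧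
    ∀ u ∈ c, nm (u - sc n ((z : V3) + v)) ≤ M' * (2 * n)}
  let E : Z → Set (Lp → ℕ) := fun z => {N | N ∉ LkB M' n v D (x z) (y z) z}
  have hdis : ∀ i j : Z, i ≠ j → Disjoint (I i) (I j) := by
    intro i j hij
    rw [Set.disjoint_left]
    rintro c ⟨hc, hci⟩ ⟨-, hcj⟩
    obtain ⟨u, hu⟩ := lkp_ne hc
    have h1 := hci u hu
    have h2 := hcj u hu
    have h3 := hsep i i.2 j j.2 (fun h => hij (Subtype.ext h))
    have h4 := lkp_tri (sc n ((i : V3) + v)) u (sc n ((j : V3) + v))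
    rw [lkp_comm (sc n ((i : V3) + v)) u, lkp_sc_sub, lkp_sc, add_sub_add_right_eq_sub] at h4
    have h5 : n * (4 * M' + 1) ≤ n * nm ((i : V3) - (j : V3)) := Nat.mul_le_mul_left n h3
    have h6 : n * (4 * M' + 1) = 2 * (M' * (2 * n)) + n := by ring
    omega
  have hmeas : ∀ i, MeasurableSet (E i) := fun i => ((hLME _ _ _ _).1).compl
  have hloc : ∀ i (N N' : Lp → ℕ), (∀ c ∈ I i, N c = N' c) → (N ∈ E i ↔ N' ∈ E i) := by
    intro i N N' h
    refine ⟨fun h1 h2 => h1 ?_, fun h1 h2 => h1 ?_⟩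
    · exact lkp_congr (fun c hc hcr => (h c ⟨hc, hcr⟩).symm) h2
    · exact lkp_congr (fun c hc hcr => h c ⟨hc, hcr⟩) h2
  have hprod := hIND Lp (inten 3 ε) Z I E hdis hmeas hloc Finset.univ
  have hset : {ω | ∀ z ∈ Z, ω ∉ LkB M' n v D (x z) (y z) z} =
      ⋂ i ∈ (Finset.univ : Finset Z), E i := by
    ext N
    simp only [Finset.mem_univ, Set.iInter_true, Set.mem_iInter]
    exact ⟨fun h i => h i i.2, fun h z hz => h ⟨z, hz⟩⟩
  have hpow : ∏ i : Z, pois (inten 3 ε) (E i) ≤ ENNReal.ofReal (1 - p) ^ Z.card := by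
    have h1 : ∏ i : Z, pois (inten 3 ε) (E i) ≤ ∏ _i : Z, ENNReal.ofReal (1 - p) :=
      Finset.prod_le_prod' fun i _ => hone i i.2
    rwa [Finset.prod_const, Finset.card_univ, Fintype.card_coe] at h1
  change soup 3 ε {ω | ∀ z ∈ Z, ω ∉ LkB M' n v D (x z) (y z) z} ≤ _
  rw [hset, ENNReal.ofReal_pow (by linarith)]
  exact (le_of_eq hprod).trans hpow

end Pool.Agent.H20.LP
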