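import Pool.Agent.H62.LP.T1
import Pool.Agent.H62.LP.T4

/-!
Rows MON and CZR of rwl_modules (helper20): monotonicity; all vertices have infinite clusters with
the same probability.
-/

set_option autoImplicit false

open MeasureTheory ProbabilityTheory Filter Topology
open scoped ENNReal NNReal

namespace Pool.Agent.H20.LP

open Pool.Agent.H62.LP

theorem mon_open {d : ℕ} {N N' : Cycle (Vt d) → ℕ} (h : ∀ c, N c ≤ N' c) {x y : Vt d}
    (hxy : Relation.ReflTransGen (Open N) x y) : Relation.ReflTransGen (Open N') x y := by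
  refine Relation.ReflTransGen.mono ?_ _ _ hxy
  rintro a b ⟨c, hc, ht⟩
  exact ⟨c, hc.trans (h c), ht⟩

theorem pf_MON (hADD : T_ADD) (hCLM : T_CLM) : T_MON := by
  intro d α α' hα n m
  have : Countable (Cycle (Vt d)) := inferInstanceAs (Countable (Quotient _))
  have h1 := hADD (Cycle (Vt d)) (inten d α) (inten d (α' - α))
  have h2 : (fun c => inten d α c + inten d (α' - α) c) = inten d α' := by
    funext c
    unfold inten
    rw [← add_mul, add_tsub_cancel_of_le hα]
  rw [h2] at h1
  have hm := (hCLM d).2 n m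
  have hmeas : Measurable fun (p : (Cycle (Vt d) → ℕ) × (Cycle (Vt d) → ℕ)) c =>
      p.1 c + p.2 c :=
    measurable_pi_lambda _ fun c => ((measurable_pi_apply c).comp measurable_fst).add
      ((measurable_pi_apply c).comp measurable_snd)
  have h3 : soup d α' {N | Cross n m N} = ((pois (inten d α)).prod (pois (inten d (α' - α))))
      ((fun (p : (Cycle (Vt d) → ℕ) × (Cycle (Vt d) → ℕ)) c => p.1 c + p.2 c) ⁻¹'
        {N | Cross n m N}) := by
    rw [← Measure.map_apply hmeas hm, h1]
    rfl
  rw [h3]
  have h4 := (measurePreserving_fst (μ := pois (inten d α))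
    (ν := pois (inten d (α' - α)))).measure_preimage hm.nullMeasurableSet
  change pois (inten d α) {N | Cross n m N} ≤ _
  rw [← h4]
  refine measure_mono ?_
  rintro p ⟨x, y, hx, hy, hxy⟩
  exact ⟨x, y, hx, hy, mon_open (fun c => Nat.le_add_right _ _) hxy⟩

theorem pf_CZR (hTRL : T_TRL) (hCLM : T_CLM) : T_CZR := by
  intro d α h
  have h1 : {N : Cycle (Vt d) → ℕ | ∃ x, (cluster N x).Infinite} =
      ⋃ x, {N | (cluster N x).Infinite} := by
    ext N
    simp
  rw [h1] at h
  obtain ⟨x, hx⟩ : ∃ x, 0 < soup d α {N | (cluster N x).Infinite} := by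
    by_contra hno
    push Not at hno
    have h2 : soup d α (⋃ x, {N | (cluster N x).Infinite}) = 0 :=
      measure_iUnion_null fun x => le_antisymm (hno x) zero_le
    rw [h2] at h
    exact lt_irrefl _ h
  have hm := (hCLM d).1 0
  have hmeas : Measurable fun (N : Cycle (Vt d) → ℕ) (c : Cycle (Vt d)) => N (c.map (· + x)) :=
    measurable_pi_lambda _ fun c => measurable_pi_apply _
  rw [← (hTRL d x).2 α, Measure.map_apply hmeas hm]
  refine hx.trans_le (measure_mono ?_)
  intro N hN
  have hN' : (cluster N x).Infinite := hN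
  change (cluster (fun c : Cycle (Vt d) => N (c.map (· + x))) 0).Infinite
  have hinj : Set.InjOn (fun y : Vt d => y - x) (cluster N x) := fun a _ b _ hab =>
    sub_left_injective hab
  refine (hN'.image hinj).mono ?_
  rintro _ ⟨y, hy, rfl⟩
  change Relation.ReflTransGen _ 0 (y - x)
  have h0 : (0 : Vt d) = x - x := (sub_self x).symm
  rw [h0]
  refine Relation.ReflTransGen.lift (fun y => y - x) ?_ _ _ hy
  rintro a b ⟨c, hc, l, hl⟩
  have hmap : (l.map (· - x)).map (· + x) = l := by
    rw [List.map_map]
    have : ((fun y : Vt d => y + x) ∘ fun y => y - x) = id := by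
      funext y
      exact sub_add_cancel y x
    rw [this, List.map_id]
  rcases hl with rfl | rfl
  · refine ⟨(((a - x) :: (b - x) :: l.map (· - x) : List (Vt d)) : Cycle (Vt d)), ?_,
      l.map (· - x), Or.inl rfl⟩
    change 1 ≤ N (Cycle.map (· + x) _)
    rw [Cycle.map_coe, List.map_cons, List.map_cons, hmap, sub_add_cancel, sub_add_cancel]
    exact hc
  · refine ⟨(((b - x) :: (a - x) :: l.map (· - x) : List (Vt d)) : Cycle (Vt d)), ?_,
      l.map (· - x), Or.inr rfl⟩
    change 1 ≤ N (Cycle.map (· + x) _)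
    rw [Cycle.map_coe, List.map_cons, List.map_cons, hmap, sub_add_cancel, sub_add_cancel]
    exact hc

end Pool.Agent.H20.LP
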